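import Pool.Agent.helper62.VQ.SpecF

/-!
# MP_07c750 (QUE), project VQ, block 5, row PZC
-/

set_option autoImplicit false

open scoped MatrixGroups ContDiff Topology UpperHalfPlane
open UpperHalfPlane MeasureTheory Filter Set

namespace Pool.Agent.VQE

open Pool.Agent.RS

noncomputable section

theorem PZC_nb {V W : Type} [NormedAddCommGroup V] [NormedAddCommGroup W] (s : Set V)
    (hs : IsCompact s) (f : V → W) (hf : ∀ x ∈ s, ContinuousAt f x) : ∃ C : ℝ, ∀ x ∈ s, ‖f x‖ ≤ C :=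
  hs.exists_bound_of_continuousOn fun x hx => (hf x hx).continuousWithinAt

theorem PZC_cb {V : Type} [NormedAddCommGroup V] [NormedSpace ℝ V] (s : Set V) (hs : IsCompact s)
    (hc : Convex ℝ s) (G : V → ℂ) (hG : ∀ x ∈ s, ContDiffAt ℝ 2 G x) :
    ∃ K : ℝ, 1 ≤ K ∧ ∀ K' : ℝ, K ≤ K' → CB s K' G := by
  have h0 : ContinuousOn G s := fun x hx => (hG x hx).continuousAt.continuousWithinAt
  have hd : ∀ x ∈ s, ContDiffAt ℝ 1 (fderiv ℝ G) x := fun x hx =>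
    (hG x hx).fderiv_right (m := 1) (by norm_num)
  have hdd : ∀ x ∈ s, ContDiffAt ℝ 0 (fderiv ℝ (fderiv ℝ G)) x := fun x hx =>
    (hd x hx).fderiv_right (m := 0) (by norm_num)
  have h1 : ContinuousOn (fderiv ℝ G) s := fun x hx => (hd x hx).continuousAt.continuousWithinAt
  obtain ⟨A, hA⟩ := hs.exists_bound_of_continuousOn h0
  obtain ⟨B, hB⟩ := hs.exists_bound_of_continuousOn h1
  obtain ⟨C, hC⟩ := PZC_nb s hs (fderiv ℝ (fderiv ℝ G)) (fun x hx => (hdd x hx).continuousAt)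
  refine ⟨max 1 (max A (max B C)), le_max_left _ _, fun K' hK' => ?_⟩
  have hA' : A ≤ K' := le_trans (le_trans (le_max_left _ _) (le_max_right _ _)) hK'
  have hB' : B ≤ K' :=
    le_trans (le_trans (le_trans (le_max_left _ _) (le_max_right _ _)) (le_max_right _ _)) hK'
  have hC' : C ≤ K' :=
    le_trans (le_trans (le_trans (le_max_right _ _) (le_max_right _ _)) (le_max_right _ _)) hK'
  refine ⟨fun x hx => (hG x hx).differentiableAt (by norm_num), fun x hx => le_trans (hA x hx) hA',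
    fun x hx => le_trans (hB x hx) hB', fun x hx y hy => ?_⟩
  exact Convex.norm_image_sub_le_of_norm_fderiv_le (𝕜 := ℝ) (f := fderiv ℝ G)
    (fun z hz => (hd z hz).differentiableAt (by norm_num))
    (fun z hz => le_trans (hC z hz) hC') hc hy hx

theorem PZC_ent (M : Fin 2 → Fin 2 → ℝ) (hM : M ∈ Metric.closedBall one2 (1 / 10)) (i j : Fin 2) :
    |M i j - one2 i j| ≤ 1 / 10 := by
  rw [Metric.mem_closedBall, dist_eq_norm] at hM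
  have h1 := norm_le_pi_norm (M - one2) i
  have h2 := norm_le_pi_norm ((M - one2) i) j
  have h3 : ‖(M - one2) i j‖ = |M i j - one2 i j| := by
    rw [Real.norm_eq_abs]
    rfl
  rw [← h3]
  linarith

theorem PZC_den (M : Fin 2 → Fin 2 → ℝ) (hM : M ∈ Metric.closedBall one2 (1 / 10)) :
    (9 : ℝ) / 5 ≤ ‖(((M 0 1 - M 1 0 : ℝ) : ℂ) + ((M 0 0 + M 1 1 : ℝ) : ℂ) * Complex.I)‖ := by
  have h00 := PZC_ent M hM 0 0
  have h11 := PZC_ent M hM 1 1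
  have e0 : one2 0 0 = 1 := by simp [one2]
  have e1 : one2 1 1 = 1 := by simp [one2]
  rw [e0] at h00
  rw [e1] at h11
  rw [abs_le] at h00 h11
  have him : (((M 0 1 - M 1 0 : ℝ) : ℂ) + ((M 0 0 + M 1 1 : ℝ) : ℂ) * Complex.I).im = M 0 0 + M 1 1 := by
    simp
  have h1 := Complex.abs_im_le_norm (((M 0 1 - M 1 0 : ℝ) : ℂ) + ((M 0 0 + M 1 1 : ℝ) : ℂ) * Complex.I)
  rw [him] at h1
  have h2 := le_abs_self (M 0 0 + M 1 1)
  linarith [h00.1, h11.1]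

theorem PZC_num (M : Fin 2 → Fin 2 → ℝ) (hM : M ∈ Metric.closedBall one2 (1 / 10)) :
    ‖(((M 0 1 + M 1 0 : ℝ) : ℂ) + ((M 0 0 - M 1 1 : ℝ) : ℂ) * Complex.I)‖ ≤ 2 / 5 := by
  have h00 := PZC_ent M hM 0 0
  have h11 := PZC_ent M hM 1 1
  have h01 := PZC_ent M hM 0 1
  have h10 := PZC_ent M hM 1 0
  have e0 : one2 0 0 = 1 := by simp [one2]
  have e1 : one2 1 1 = 1 := by simp [one2]
  have e2 : one2 0 1 = 0 := by simp [one2]
  have e3 : one2 1 0 = 0 := by simp [one2]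
  rw [e0] at h00
  rw [e1] at h11
  rw [e2] at h01
  rw [e3] at h10
  rw [abs_le] at h00 h11 h01 h10
  have h1 : ‖((M 0 1 + M 1 0 : ℝ) : ℂ)‖ ≤ 1 / 5 := by
    rw [Complex.norm_real, Real.norm_eq_abs, abs_le]
    constructor <;> linarith [h01.1, h01.2, h10.1, h10.2]
  have h2 : ‖((M 0 0 - M 1 1 : ℝ) : ℂ) * Complex.I‖ ≤ 1 / 5 := by
    rw [norm_mul, Complex.norm_I, mul_one, Complex.norm_real, Real.norm_eq_abs, abs_le]
    constructor <;> linarith [h00.1, h00.2, h11.1, h11.2]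
  have h3 := norm_add_le ((M 0 1 + M 1 0 : ℝ) : ℂ) (((M 0 0 - M 1 1 : ℝ) : ℂ) * Complex.I)
  linarith

theorem PZC_cde (i j : Fin 2) : ContDiff ℝ 2 (fun M : Fin 2 → Fin 2 → ℝ => M i j) := by
  fun_prop

theorem PZC_cden : ContDiff ℝ 2 (fun M : Fin 2 → Fin 2 → ℝ =>
    (((M 0 1 - M 1 0 : ℝ) : ℂ) + ((M 0 0 + M 1 1 : ℝ) : ℂ) * Complex.I)) := by
  have h1 : ContDiff ℝ 2 (fun M : Fin 2 → Fin 2 → ℝ => ((M 0 1 - M 1 0 : ℝ) : ℂ)) :=
    Complex.ofRealCLM.contDiff.comp ((PZC_cde 0 1).sub (PZC_cde 1 0))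
  have h2 : ContDiff ℝ 2 (fun M : Fin 2 → Fin 2 → ℝ => ((M 0 0 + M 1 1 : ℝ) : ℂ)) :=
    Complex.ofRealCLM.contDiff.comp ((PZC_cde 0 0).add (PZC_cde 1 1))
  exact h1.add (h2.mul contDiff_const)

theorem PZC_cnum : ContDiff ℝ 2 (fun M : Fin 2 → Fin 2 → ℝ =>
    (((M 0 1 + M 1 0 : ℝ) : ℂ) + ((M 0 0 - M 1 1 : ℝ) : ℂ) * Complex.I)) := by
  have h1 : ContDiff ℝ 2 (fun M : Fin 2 → Fin 2 → ℝ => ((M 0 1 + M 1 0 : ℝ) : ℂ)) :=
    Complex.ofRealCLM.contDiff.comp ((PZC_cde 0 1).add (PZC_cde 1 0))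
  have h2 : ContDiff ℝ 2 (fun M : Fin 2 → Fin 2 → ℝ => ((M 0 0 - M 1 1 : ℝ) : ℂ)) :=
    Complex.ofRealCLM.contDiff.comp ((PZC_cde 0 0).sub (PZC_cde 1 1))
  exact h1.add (h2.mul contDiff_const)

theorem PZC_ze (M : Fin 2 → Fin 2 → ℝ) (hM : M ∈ Metric.closedBall one2 (1 / 10)) :
    ContDiffAt ℝ 2 ze M := by
  have hd := PZC_den M hM
  have hne : (((M 0 1 - M 1 0 : ℝ) : ℂ) + ((M 0 0 + M 1 1 : ℝ) : ℂ) * Complex.I) ≠ 0 := by
    intro h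
    rw [h, norm_zero] at hd
    norm_num at hd
  have h1 : ContDiffAt ℝ 2 (fun M : Fin 2 → Fin 2 → ℝ =>
      (2 * (((M 0 1 + M 1 0 : ℝ) : ℂ) + ((M 0 0 - M 1 1 : ℝ) : ℂ) * Complex.I)) *
      (((M 0 1 - M 1 0 : ℝ) : ℂ) + ((M 0 0 + M 1 1 : ℝ) : ℂ) * Complex.I)⁻¹) M :=
    (contDiffAt_const.mul PZC_cnum.contDiffAt).mul (PZC_cden.contDiffAt.inv hne)
  have h2 : ze = fun M : Fin 2 → Fin 2 → ℝ =>
      (2 * (((M 0 1 + M 1 0 : ℝ) : ℂ) + ((M 0 0 - M 1 1 : ℝ) : ℂ) * Complex.I)) *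
      (((M 0 1 - M 1 0 : ℝ) : ℂ) + ((M 0 0 + M 1 1 : ℝ) : ℂ) * Complex.I)⁻¹ := by
    funext M
    exact div_eq_mul_inv _ _
  rw [h2]
  exact h1

theorem PZC_et (M : Fin 2 → Fin 2 → ℝ) (hM : M ∈ Metric.closedBall one2 (1 / 10)) :
    ContDiffAt ℝ 2 et M := by
  have hd := PZC_den M hM
  have hne : (((M 0 1 - M 1 0 : ℝ) : ℂ) + ((M 0 0 + M 1 1 : ℝ) : ℂ) * Complex.I) ≠ 0 := by
    intro h
    rw [h, norm_zero] at hd
    norm_num at hd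
  have h1 : ContDiffAt ℝ 2 (fun M : Fin 2 → Fin 2 → ℝ =>
      (-4 : ℂ) * ((((M 0 1 - M 1 0 : ℝ) : ℂ) + ((M 0 0 + M 1 1 : ℝ) : ℂ) * Complex.I) ^ 2)⁻¹) M :=
    contDiffAt_const.mul ((PZC_cden.contDiffAt.pow 2).inv (pow_ne_zero 2 hne))
  have h2 : et = fun M : Fin 2 → Fin 2 → ℝ =>
      (-4 : ℂ) * ((((M 0 1 - M 1 0 : ℝ) : ℂ) + ((M 0 0 + M 1 1 : ℝ) : ℂ) * Complex.I) ^ 2)⁻¹ := by
    funext M
    exact div_eq_mul_inv _ _
  rw [h2]
  exact h1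

theorem PZC_proof : PZC_stmt := by
  have hcp : IsCompact (Metric.closedBall one2 (1 / 10)) := isCompact_closedBall _ _
  have hcv : Convex ℝ (Metric.closedBall one2 (1 / 10)) := convex_closedBall _ _
  obtain ⟨K1, hK1, h1⟩ := PZC_cb _ hcp hcv ze PZC_ze
  obtain ⟨K2, hK2, h2⟩ := PZC_cb _ hcp hcv et PZC_et
  refine ⟨max K1 K2, le_trans hK1 (le_max_left _ _), h1 _ (le_max_left _ _), h2 _ (le_max_right _ _),
    fun M hM => ?_⟩
  have hd := PZC_den M hM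
  have hn := PZC_num M hM
  have hp : 0 < ‖(((M 0 1 - M 1 0 : ℝ) : ℂ) + ((M 0 0 + M 1 1 : ℝ) : ℂ) * Complex.I)‖ := by linarith
  unfold ze
  rw [norm_div, norm_mul, div_le_iff₀ hp]
  have e2 : ‖(2 : ℂ)‖ = 2 := by simp
  rw [e2]
  linarith

end

end Pool.Agent.VQE
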